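import Pool.Agent.Lib_helper27.H.Final

/-!
# A model of ZFC with Hajnal–Máté graphs but no regressive Hajnal–Máté graph

The model is a forcing extension of the universe of types. Let `Ω` be a well-order of type `ω₁`
and `K` the initial ordinal of size `2 ^ ℵ₁`. A function `cls : Ω → Ω`, regressive at limits, has
unboundedly many stationary fibres, and each point has infinitely many colours reserved for its
class. A condition is a pair `(a, c)` of finite sets: `a` approximates ladders which avoid the
class of their top point, and `c` approximates, for each stage `ζ` of `K`, a colouring of `Ω` with
colours reserved for the class. Equally coloured points must be forced not to be adjacent in the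
graph named at stage `ζ`, provided that this graph is forced to be locally finite.

Every Hajnal–Máté graph of the extension is named at some stage and gets a proper regressive
colouring. The graph of the generic ladders stays uncountably chromatic: given conditions `p α` and
integers `n α` for `α` in `Ω`, there are `β < α` with `n β = n α` and a condition below `p α` and
`p β` which puts `β` into the ladder of `α` (this is `Pool.Agent.Lib_helper27.H.pres`). The model
itself is the quotient of the class of names by an ultrafilter containing all dense open sets.
-/

namespace Pool.Agent.Results.MP_aaa72f_lc.NoRegressiveHM

open Pool.Agent.Lib_helper27 Pool.Agent.Lib_helper27.Fml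

/-- **It is consistent with ZFC that there is a Hajnal–Máté graph but no regressive Hajnal–Máté
graph.** There is a model `(M, E)` of ZFC which satisfies the first-order sentence `hmNoReg`: there
is an HM graph on `ω₁`, and no HM graph on `ω₁` is regressive. -/
theorem result : ∃ (M : Type 1) (E : M → M → Prop), IsModelOfZFC E ∧ Holds E hmNoReg :=
  H.main

end Pool.Agent.Results.MP_aaa72f_lc.NoRegressiveHM
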